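import Pool.Agent.W275.UB.Den

set_option autoImplicit false
set_option linter.style.haveILetI false
set_option linter.unusedSectionVars false

/-! A discrete valuation ring of a finite extension of `ℚ_p`. -/

namespace Pool.Agent.W21.UB

open Pool.Agent.W275.UB

section aux

variable {O : Type} [CommRing O] [IsDomain O]

lemma inv_mod {P : Ideal O} (hP : P.IsMaximal) (j : ℕ) (s : O) (hs : s ∉ P) :
    ∃ t : O, 1 - s * t ∈ P ^ j := by
  have h1 : IsCoprime (Ideal.span {s}) P := by
    rw [Ideal.isCoprime_iff_sup_eq]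
    by_contra h
    have h2 := hP.eq_of_le h le_sup_right
    apply hs
    rw [h2]
    exact Ideal.mem_sup_left (Ideal.mem_span_singleton_self s)
  obtain ⟨i, hi, k, hk, hik⟩ := Ideal.isCoprime_iff_exists.1 (h1.pow_right (n := j))
  obtain ⟨t, rfl⟩ := Ideal.mem_span_singleton'.1 hi
  refine ⟨t, ?_⟩
  have h3 : 1 - s * t = k := by rw [← hik]; ring
  rw [h3]; exact hk

lemma surj_mod (P : Ideal O) [hP : P.IsMaximal] [IsDiscreteValuationRing (Localization.AtPrime P)]
    (π : Localization.AtPrime P) (hπ : Irreducible π) (j : ℕ) :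
    Function.Surjective ((Ideal.Quotient.mk (Ideal.span {π ^ j})).comp
      (algebraMap O (Localization.AtPrime P))) := by
  intro y
  obtain ⟨x, rfl⟩ := Ideal.Quotient.mk_surjective y
  obtain ⟨⟨a, s⟩, hx⟩ := IsLocalization.surj P.primeCompl x
  obtain ⟨t, ht⟩ := inv_mod hP j (s : O) s.2
  refine ⟨a * t, ?_⟩
  rw [RingHom.comp_apply, Ideal.Quotient.eq]
  have h1 : algebraMap O (Localization.AtPrime P) (1 - s * t) ∈ Ideal.span {π ^ j} := by
    have h2 := Ideal.mem_map_of_mem (algebraMap O (Localization.AtPrime P)) ht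
    rw [Ideal.map_pow, Localization.AtPrime.map_eq_maximalIdeal, hπ.maximalIdeal_eq,
      Ideal.span_singleton_pow] at h2
    exact h2
  have h3 : algebraMap O (Localization.AtPrime P) (a * t) - x =
      -x * algebraMap O (Localization.AtPrime P) (1 - s * t) := by
    rw [map_mul, ← hx, map_sub, map_one, map_mul]
    ring
  rw [h3]
  exact Ideal.mul_mem_left _ _ h1

lemma card_le (P : Ideal O) [hP : P.IsMaximal] [IsDiscreteValuationRing (Localization.AtPrime P)]
    (π : Localization.AtPrime P) (hπ : Irreducible π) (j : ℕ) (a : O)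
    (ha : Finite (O ⧸ Ideal.span {a})) (h : π ^ j ∣ algebraMap O (Localization.AtPrime P) a) :
    Finite (Localization.AtPrime P ⧸ Ideal.span {π ^ j}) ∧
      Nat.card (Localization.AtPrime P ⧸ Ideal.span {π ^ j}) ≤ Nat.card (O ⧸ Ideal.span {a}) := by
  let f := (Ideal.Quotient.mk (Ideal.span {π ^ j})).comp (algebraMap O (Localization.AtPrime P))
  have hf : ∀ x ∈ Ideal.span {a}, f x = 0 := by
    intro x hx
    obtain ⟨y, rfl⟩ := Ideal.mem_span_singleton'.1 hx
    show (Ideal.Quotient.mk (Ideal.span {π ^ j})) (algebraMap O _ (y * a)) = 0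
    rw [Ideal.Quotient.eq_zero_iff_mem, map_mul]
    exact Ideal.mul_mem_left _ _ (Ideal.mem_span_singleton.2 h)
  have hs : Function.Surjective (Ideal.Quotient.lift (Ideal.span {a}) f hf) :=
    Ideal.Quotient.lift_surjective_of_surjective _ hf (surj_mod P π hπ j)
  exact ⟨Finite.of_surjective _ hs, Nat.card_le_card_of_surjective _ hs⟩

end aux

/-- the quotient of a free module over `ℤ_p` by `p` -/
lemma quot_p (p : ℕ) [Fact p.Prime] (O : Type) [CommRing O] [Algebra ℤ_[p] O]
    [Module.Free ℤ_[p] O] [Module.Finite ℤ_[p] O] :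
    Finite (O ⧸ Ideal.span {(p : O)}) ∧
      Nat.card (O ⧸ Ideal.span {(p : O)}) ≤ p ^ Module.finrank ℤ_[p] O := by
  set n := Module.finrank ℤ_[p] O with hn
  let b : Module.Basis (Fin n) ℤ_[p] O := Module.finBasis ℤ_[p] O
  let g : (Fin n → ZMod p) → O ⧸ Ideal.span {(p : O)} := fun c =>
    Ideal.Quotient.mk _ (∑ i, (ZMod.cast (c i) : ℤ_[p]) • b i)
  have hg : Function.Surjective g := by
    intro y
    obtain ⟨x, rfl⟩ := Ideal.Quotient.mk_surjective y
    refine ⟨fun i => PadicInt.toZMod (b.repr x i), ?_⟩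
    simp only [g]
    rw [Ideal.Quotient.eq]
    have h1 : ∀ i, ∃ w : ℤ_[p], (ZMod.cast (PadicInt.toZMod (b.repr x i)) : ℤ_[p]) =
        b.repr x i + (p : ℤ_[p]) * w := by
      intro i
      have := PadicInt.toZMod_spec (b.repr x i)
      rw [PadicInt.maximalIdeal_eq_span_p, Ideal.mem_span_singleton] at this
      obtain ⟨w, hw⟩ := this
      exact ⟨-w, by linear_combination -hw⟩
    choose w hw using h1
    simp only [hw, add_smul, mul_smul, Finset.sum_add_distrib]
    rw [b.sum_repr x, add_sub_cancel_left, ← Finset.smul_sum]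
    rw [Ideal.mem_span_singleton]
    refine ⟨∑ i, w i • b i, ?_⟩
    rw [Algebra.smul_def, map_natCast]
  have hc : Nat.card (Fin n → ZMod p) = p ^ n := by
    rw [Nat.card_fun, Nat.card_zmod, Nat.card_fin]
  refine ⟨Finite.of_surjective g hg, ?_⟩
  rw [← hc]
  exact Nat.card_le_card_of_surjective g hg

theorem main : S_nfp := by
  intro p hp D L _ _ _ hD
  letI algZ : Algebra ℤ_[p] L := ((algebraMap ℚ_[p] L).comp (algebraMap ℤ_[p] ℚ_[p])).toAlgebra
  haveI tow0 : IsScalarTower ℤ_[p] ℚ_[p] L := IsScalarTower.of_algebraMap_eq' rfl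
  have hinj : Function.Injective (algebraMap ℤ_[p] L) :=
    (algebraMap ℚ_[p] L).injective.comp (IsFractionRing.injective ℤ_[p] ℚ_[p])
  haveI tf : Module.IsTorsionFree ℤ_[p] L := Module.isTorsionFree_iff_algebraMap_injective.2 hinj
  let O := integralClosure ℤ_[p] L
  haveI hDed : IsDedekindDomain O := IsIntegralClosure.isDedekindDomain ℤ_[p] ℚ_[p] L O
  haveI hfr : IsFractionRing O L :=
    IsIntegralClosure.isFractionRing_of_finite_extension ℤ_[p] ℚ_[p] L O
  haveI hfree : Module.Free ℤ_[p] O := IsIntegralClosure.module_free ℤ_[p] ℚ_[p] L O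
  haveI hfin : Module.Finite ℤ_[p] O := IsIntegralClosure.finite ℤ_[p] ℚ_[p] L O
  have hrank : Module.finrank ℤ_[p] O = Module.finrank ℚ_[p] L :=
    IsIntegralClosure.rank ℤ_[p] ℚ_[p] L O
  obtain ⟨hpfin, hpcard⟩ := quot_p p O
  have hpD : Nat.card (O ⧸ Ideal.span {(p : O)}) ≤ p ^ D :=
    hpcard.trans (Nat.pow_le_pow_right hp.1.pos (hrank.le.trans hD))
  haveI hint : Algebra.IsIntegral ℤ_[p] O := inferInstance
  obtain ⟨P, hP⟩ := Ideal.exists_maximal O
  haveI := hP
  have hcomap : (P.comap (algebraMap ℤ_[p] O)).IsMaximal :=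
    Ideal.isMaximal_comap_of_isIntegral_of_isMaximal P
  have hpP : (p : O) ∈ P := by
    have h1 : P.comap (algebraMap ℤ_[p] O) = IsLocalRing.maximalIdeal ℤ_[p] :=
      IsLocalRing.eq_maximalIdeal hcomap
    have h2 : (p : ℤ_[p]) ∈ P.comap (algebraMap ℤ_[p] O) := by
      rw [h1, PadicInt.maximalIdeal_eq_span_p]
      exact Ideal.mem_span_singleton_self _
    rw [Ideal.mem_comap, map_natCast] at h2
    exact h2
  haveI hchar : CharZero L := charZero_of_injective_algebraMap (algebraMap ℚ_[p] L).injective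
  have hpL : (p : L) ≠ 0 := by exact_mod_cast hp.1.ne_zero
  have hpO : (p : O) ≠ 0 := by
    intro h
    have h2 := congrArg (algebraMap O L) h
    rw [map_natCast, map_zero] at h2
    exact hpL h2
  have hP0 : P ≠ ⊥ := by
    intro h
    rw [h, Ideal.mem_bot] at hpP
    exact hpO hpP
  haveI : P.IsPrime := hP.isPrime
  haveI hdvr : IsDiscreteValuationRing (Localization.AtPrime P) :=
    IsLocalization.AtPrime.isDiscreteValuationRing_of_dedekind_domain O hP0 _
  letI alg : Algebra (Localization.AtPrime P) L :=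
    IsLocalization.localizationAlgebraOfSubmonoidLe (Localization.AtPrime P) L P.primeCompl
      (nonZeroDivisors O) P.primeCompl_le_nonZeroDivisors
  haveI tower : IsScalarTower O (Localization.AtPrime P) L :=
    IsLocalization.localization_isScalarTower_of_submonoid_le (Localization.AtPrime P) L
      P.primeCompl (nonZeroDivisors O) P.primeCompl_le_nonZeroDivisors
  haveI frac : IsFractionRing (Localization.AtPrime P) L :=
    IsFractionRing.isFractionRing_of_isDomain_of_isLocalization P.primeCompl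
      (Localization.AtPrime P) L
  obtain ⟨π, hπ⟩ := IsDiscreteValuationRing.exists_irreducible (Localization.AtPrime P)
  have hmem : ∀ a : O, a ∈ P → π ∣ algebraMap O (Localization.AtPrime P) a := by
    intro a ha
    have h1 := Ideal.mem_map_of_mem (algebraMap O (Localization.AtPrime P)) ha
    rw [Localization.AtPrime.map_eq_maximalIdeal, hπ.maximalIdeal_eq] at h1
    exact Ideal.mem_span_singleton.1 h1
  have hcast : ∀ q : ℕ, algebraMap O (Localization.AtPrime P) (q : O) =
      (q : Localization.AtPrime P) := fun q => map_natCast _ q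
  have hπp : π ∣ (p : Localization.AtPrime P) := by
    rw [← hcast]; exact hmem _ hpP
  have h1 := card_le P π hπ 1 (p : O) hpfin (by rw [pow_one, hcast]; exact hπp)
  have hspan : ∀ j : ℕ, Nat.card (Localization.AtPrime P ⧸ Ideal.span {π ^ j}) =
      Nat.card (Localization.AtPrime P ⧸ Ideal.span {π ^ 1}) ^ j := by
    intro j
    haveI : (Ideal.span {π} : Ideal (Localization.AtPrime P)).IsPrime := by
      rw [← hπ.maximalIdeal_eq]
      exact (IsLocalRing.maximalIdeal.isMaximal _).isPrime
    have h2 : (Ideal.span {π} : Ideal (Localization.AtPrime P)) ≠ ⊥ := by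
      rw [Ne, Ideal.span_singleton_eq_bot]; exact hπ.ne_zero
    have h3 := cardQuot_pow_of_prime h2 (i := j)
    rw [Ideal.span_singleton_pow] at h3
    rw [pow_one]
    exact h3
  have hcpos : Nat.card (Localization.AtPrime P ⧸ Ideal.span {π ^ 1}) ≠ 0 := by
    haveI := h1.1
    exact Nat.card_pos.ne'
  have hge : p ≤ Nat.card (Localization.AtPrime P ⧸ Ideal.span {π ^ 1}) := by
    have hnt : (1 : Localization.AtPrime P ⧸ Ideal.span {π ^ 1}) ≠ 0 := by
      intro h
      have h2 : (Ideal.Quotient.mk (Ideal.span {π ^ 1})) 1 = 0 := by rw [map_one]; exact h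
      rw [Ideal.Quotient.eq_zero_iff_mem, Ideal.mem_span_singleton, pow_one] at h2
      exact hπ.not_isUnit (isUnit_of_dvd_one h2)
    have h0 : p • (1 : Localization.AtPrime P ⧸ Ideal.span {π ^ 1}) = 0 := by
      rw [nsmul_eq_mul, mul_one]
      have h2 : (Ideal.Quotient.mk (Ideal.span {π ^ 1})) (p : Localization.AtPrime P) = 0 := by
        rw [Ideal.Quotient.eq_zero_iff_mem, Ideal.mem_span_singleton, pow_one]
        exact hπp
      rwa [map_natCast] at h2
    have h2 := addOrderOf_eq_prime h0 hnt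
    have h3 := addOrderOf_dvd_natCard (1 : Localization.AtPrime P ⧸ Ideal.span {π ^ 1})
    rw [h2] at h3
    exact Nat.le_of_dvd (Nat.pos_of_ne_zero hcpos) h3
  refine ⟨Localization.AtPrime P, inferInstance, inferInstance, hdvr, alg, frac, π, hπ, hπp, ?_,
    ?_, ?_⟩
  · intro hdvd
    have hq0 : (p : Localization.AtPrime P) ≠ 0 := by
      intro h
      have h2 : algebraMap (Localization.AtPrime P) L (p : Localization.AtPrime P) = 0 := by
        rw [h, map_zero]
      rw [map_natCast] at h2
      exact hpL h2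
    obtain ⟨m, hm⟩ := IsDiscreteValuationRing.associated_pow_irreducible hq0 hπ
    have hm1 : D + 1 ≤ m := by
      have h2 : π ^ (D + 1) ∣ π ^ m := hdvd.trans hm.dvd
      exact (pow_dvd_pow_iff hπ.ne_zero hπ.not_isUnit).1 h2
    have h3 := (card_le P π hπ m (p : O) hpfin (by rw [hcast]; exact hm.symm.dvd)).2
    rw [hspan m] at h3
    have h4 : p ^ (D + 1) ≤ p ^ D := calc
      p ^ (D + 1) ≤ p ^ m := Nat.pow_le_pow_right hp.1.pos hm1
      _ ≤ Nat.card (Localization.AtPrime P ⧸ Ideal.span {π ^ 1}) ^ m :=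
          Nat.pow_le_pow_left hge m
      _ ≤ _ := h3.trans hpD
    exact absurd h4 (not_le.2 (Nat.pow_lt_pow_right hp.1.one_lt (Nat.lt_succ_self D)))
  · intro j
    constructor
    · apply Nat.finite_of_card_ne_zero
      rw [hspan j]
      exact pow_ne_zero _ hcpos
    · rw [hspan j, pow_mul]
      exact Nat.pow_le_pow_left (h1.2.trans hpD) j
  · intro z
    refine ⟨algebraMap O (Localization.AtPrime P) (algebraMap ℤ_[p] O z), ?_⟩
    rw [← IsScalarTower.algebraMap_apply O (Localization.AtPrime P) L,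
      ← IsScalarTower.algebraMap_apply ℤ_[p] O L]
    rfl

end Pool.Agent.W21.UB
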